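import Pool.Agent.Helper99.LZ.Goals

/-!
# Packet IDX (index argument)
-/

set_option autoImplicit false

open Finset

namespace Pool.Agent.Helper4.LZ

open Pool.Agent.Helper99.LZ

theorem idx : StmtIDX := by
  intro C U V _ _ _ _ _ M w e X s hne hsym hw hX hone hcross hpos hrad v
  classical
  set μ : ℝ := ∑ c, w c with hμ
  have hμpos : 0 < μ := Finset.sum_pos (fun c _ => hw c) Finset.univ_nonempty
  have hXX : 0 < ∑ c, w c * M c (e X) (e X) :=
    Finset.sum_pos (fun c _ => mul_pos (hw c) (hX c)) Finset.univ_nonempty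
  -- the linear maps
  let t : (C → ℝ) →ₗ[ℝ] ℝ := ∑ c, w c • (LinearMap.proj c : (C → ℝ) →ₗ[ℝ] ℝ)
  have ht : ∀ z, t z = ∑ c, w c * z c := by
    intro z; simp [t]
  let ζ : (C → ℝ) →ₗ[ℝ] (C → ℝ) := LinearMap.id - t.smulRight (fun _ : C => 1 / μ)
  have hζ : ∀ z c, ζ z c = z c - t z * (1 / μ) := by
    intro z c
    simp [ζ]
  have hζsum : ∀ z, ∑ c, w c * ζ z c = 0 := by
    intro z
    have h1 : ∑ c, w c * ζ z c = (∑ c, w c * z c) - μ * (t z * (1 / μ)) := by
      rw [hμ, Finset.sum_mul, ← Finset.sum_sub_distrib]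
      refine Finset.sum_congr rfl fun c _ => ?_
      rw [hζ, mul_sub]
    rw [h1, ← ht]
    field_simp
    ring
  let Λ : (C → ℝ) →ₗ[ℝ] (C → ℝ) := LinearMap.pi fun c =>
    (M c (e X)).comp (t.smulRight (-(e X)) + (LinearMap.proj c).comp (s.comp ζ))
  have hΛ : ∀ z c, Λ z c = -(t z) * M c (e X) (e X) + M c (e X) (s (ζ z) c) := by
    intro z c
    simp [Λ]
  have hΛsum : ∀ z, ∑ c, w c * Λ z c = -(t z) * ∑ c, w c * M c (e X) (e X) := by
    intro z
    have h1 : ∑ c, w c * Λ z c = -(t z) * (∑ c, w c * M c (e X) (e X))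
        + ∑ c, w c * M c (e X) (s (ζ z) c) := by
      rw [Finset.mul_sum, ← Finset.sum_add_distrib]
      refine Finset.sum_congr rfl fun c _ => ?_
      rw [hΛ]; ring
    rw [h1, hcross (ζ z) (hζsum z) X, add_zero]
  have hinj : Function.Injective Λ := by
    rw [injective_iff_map_eq_zero]
    intro z hz
    have h0 : ∀ c, Λ z c = 0 := fun c => by rw [hz]; rfl
    have ht0 : t z = 0 := by
      have h1 := hΛsum z
      simp only [h0, mul_zero, Finset.sum_const_zero] at h1
      have h2 : t z * ∑ c, w c * M c (e X) (e X) = 0 := by linarith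
      rcases mul_eq_zero.1 h2 with h | h
      · exact h
      · exact absurd h hXX.ne'
    have hζz : ζ z = z := by
      funext c
      rw [hζ, ht0]; ring
    have hM : ∀ c, M c (e X) (s z c) = 0 := by
      intro c
      have h1 := h0 c
      rw [hΛ, ht0, hζz] at h1
      linarith
    have hle : ∀ c, M c (s z c) (s z c) ≤ 0 := by
      intro c
      have h1 := hone c (s z c)
      rw [hM c] at h1
      have h2 : M c (e X) (e X) * M c (s z c) (s z c) ≤ 0 := by simpa using h1
      by_contra hcon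
      push Not at hcon
      exact absurd h2 (not_le.2 (mul_pos (hX c) hcon))
    have hz0 : ∑ c, w c * z c = 0 := by rw [← ht, ht0]
    have hsum0 := hpos z hz0
    have hterm : ∀ c, w c * M c (s z c) (s z c) ≤ 0 := fun c =>
      mul_nonpos_of_nonneg_of_nonpos (hw c).le (hle c)
    have hsumz : ∑ c, w c * M c (s z c) (s z c) = 0 :=
      le_antisymm (Finset.sum_nonpos fun c _ => hterm c) hsum0
    have hall := (Finset.sum_eq_zero_iff_of_nonpos (fun c _ => hterm c)).1 hsumz
    refine hrad z hz0 fun c => ⟨hM c, ?_⟩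
    have h1 := hall c (Finset.mem_univ c)
    rcases mul_eq_zero.1 h1 with h | h
    · exact absurd h (hw c).ne'
    · exact h
  have hsurj : Function.Surjective Λ := LinearMap.injective_iff_surjective.1 hinj
  obtain ⟨z, hz⟩ := hsurj (fun c => -(M c (e X) (e v)))
  have hzc : ∀ c, -(t z) * M c (e X) (e X) + M c (e X) (s (ζ z) c) = -(M c (e X) (e v)) := by
    intro c
    rw [← hΛ, hz]
  set τ : ℝ := t z with hτ
  set σ : C → U := s (ζ z) with hσ
  have hcr : ∀ v, ∑ c, w c * M c (e v) (σ c) = 0 := hcross (ζ z) (hζsum z)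
  have hps : 0 ≤ ∑ c, w c * M c (σ c) (σ c) := hpos (ζ z) (hζsum z)
  -- the vector u_c
  have hu : ∀ c, M c (e v - τ • e X + σ c) (e v - τ • e X + σ c) ≤ 0 := by
    intro c
    have h0 : M c (e X) (e v - τ • e X + σ c) = 0 := by
      rw [map_add, map_sub, map_smul, smul_eq_mul]
      linarith [hzc c]
    have h1 := hone c (e v - τ • e X + σ c)
    rw [h0] at h1
    by_contra hcon
    push Not at hcon
    have h2 := mul_pos (hX c) hcon
    have h3 : (0 : ℝ) ^ 2 = 0 := by norm_num
    rw [h3] at h1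
    exact absurd h1 (not_le.2 h2)
  have hexp : ∀ c, M c (e v - τ • e X + σ c) (e v - τ • e X + σ c)
      = M c (e v) (e v) - 2 * τ * M c (e X) (e v) + τ ^ 2 * M c (e X) (e X)
        + 2 * M c (e v) (σ c) - 2 * τ * M c (e X) (σ c) + M c (σ c) (σ c) := by
    intro c
    have s1 := hsym c (e v) (e X)
    have s2 := hsym c (σ c) (e v)
    have s3 := hsym c (σ c) (e X)
    simp only [map_add, map_sub, map_smul, LinearMap.add_apply, LinearMap.sub_apply,
      LinearMap.smul_apply, smul_eq_mul]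
    rw [s1, s2, s3]
    ring
  have hsumle : ∑ c, w c * M c (e v - τ • e X + σ c) (e v - τ • e X + σ c) ≤ 0 :=
    Finset.sum_nonpos fun c _ => mul_nonpos_of_nonneg_of_nonpos (hw c).le (hu c)
  have hsumexp : ∑ c, w c * M c (e v - τ • e X + σ c) (e v - τ • e X + σ c)
      = (∑ c, w c * M c (e v) (e v)) - 2 * τ * (∑ c, w c * M c (e X) (e v))
        + τ ^ 2 * (∑ c, w c * M c (e X) (e X)) + 2 * (∑ c, w c * M c (e v) (σ c))
        - 2 * τ * (∑ c, w c * M c (e X) (σ c)) + ∑ c, w c * M c (σ c) (σ c) := by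
    simp only [Finset.mul_sum, ← Finset.sum_sub_distrib, ← Finset.sum_add_distrib]
    refine Finset.sum_congr rfl fun c _ => ?_
    rw [hexp]; ring
  have hXv : ∑ c, w c * M c (e X) (e v) = τ * ∑ c, w c * M c (e X) (e X) := by
    have h1 : ∑ c, w c * (-τ * M c (e X) (e X) + M c (e X) (σ c))
        = ∑ c, w c * (-(M c (e X) (e v))) :=
      Finset.sum_congr rfl fun c _ => by rw [hzc c]
    have h2 : ∑ c, w c * (-τ * M c (e X) (e X) + M c (e X) (σ c))
        = -τ * (∑ c, w c * M c (e X) (e X)) + ∑ c, w c * M c (e X) (σ c) := by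
      simp only [Finset.mul_sum, ← Finset.sum_add_distrib]
      refine Finset.sum_congr rfl fun c _ => ?_
      ring
    have h3 : ∑ c, w c * (-(M c (e X) (e v))) = -∑ c, w c * M c (e X) (e v) := by
      simp [mul_neg, Finset.sum_neg_distrib]
    rw [h2, h3, hcr X] at h1
    linarith
  rw [hsumexp, hcr v, hcr X] at hsumle
  have hvv : ∑ c, w c * M c (e v) (e v) ≤ τ ^ 2 * ∑ c, w c * M c (e X) (e X) := by
    rw [hXv] at hsumle
    nlinarith
  rw [hXv]
  nlinarith [mul_le_mul_of_nonneg_left hvv hXX.le]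

end Pool.Agent.Helper4.LZ
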